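import Pool.Agent.helper99.EP.Spec
import Pool.Agent.helper72.AT.PSY

/-!
# Row ep:UQS (MP_bf63dc_nt)
-/

set_option autoImplicit false

namespace Pool.Agent.EP

open Finset Pool.Agent.helper85.FC Pool.Agent.OM Pool.Agent.helper11.TX Pool.Agent.AT

theorem UQS_SS_symm (a b : ℕ) (c : ℤ) : SS a b c = SS b a (-c) := by
  unfold SS
  rw [Int.natAbs_neg, mul_comm a b]

theorem UQS_SS_nonneg (a b : ℕ) (c : ℤ) : 0 ≤ SS a b c := by
  unfold SS
  refine prod_nonneg fun l hl => ?_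
  rw [mem_filter] at hl
  have h1 := (Nat.prime_of_mem_primeFactors hl.1).two_le
  have h2 : 3 ≤ l := by
    have := hl.2
    omega
  have h3 : (3 : ℝ) ≤ l := by exact_mod_cast h2
  exact div_nonneg (by linarith) (by linarith)

theorem UQS_adm {a b : ℕ} {c : ℤ} (h : Pool.Agent.helper11.TX.Adm a b c) : Pool.Agent.helper11.TX.Adm b a (-c) := by
  obtain ⟨ha, hb, hc, hab, hac, hbc, hodd⟩ := h
  refine ⟨hb, ha, neg_ne_zero.2 hc, hab.symm, hbc.neg_right, hac.neg_right, ?_⟩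
  rintro ⟨h1, h2, h3⟩
  exact hodd ⟨h2, h1, by simpa using h3⟩

theorem UQS_Ms (P : ℕ → ℕ → ℤ → Prop) (hP : ∀ a b c, P a b c → P b a (-c)) (a b X : ℕ) :
    Ms P a b X = Ms P b a X := by
  classical
  unfold Ms
  refine Finset.sum_nbij' (fun c => -c) (fun c => -c) ?_ ?_ (fun c _ => neg_neg c) (fun c _ => neg_neg c)
    (fun c _ => UQS_SS_symm a b c)
  · intro c hc
    rw [mem_filter, mem_Icc] at hc ⊢
    exact ⟨⟨by linarith [hc.1.2], by linarith [hc.1.1]⟩, hP _ _ _ hc.2⟩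
  · intro c hc
    rw [mem_filter, mem_Icc] at hc ⊢
    exact ⟨⟨by linarith [hc.1.2], by linarith [hc.1.1]⟩, hP _ _ _ hc.2⟩

theorem UQS_Ms_nonneg (P : ℕ → ℕ → ℤ → Prop) (a b X : ℕ) : 0 ≤ Ms P a b X := by
  unfold Ms
  exact sum_nonneg fun c _ => UQS_SS_nonneg a b c

theorem UQS (hWDW : WDW_stmt) : UQS_stmt := by
  refine ⟨fun δ s t h => ?_, fun δ c s t hc => ?_, fun hD δ hδ0 hδ s hs => ?_⟩
  · unfold UQ UD at h ⊢
    intro X₀
    obtain ⟨X, hX, h1⟩ := h X₀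
    refine ⟨X, hX, ?_⟩
    rw [Nat.gcd_comm t s, ← UQS_Ms _ (fun _ _ _ h => UQS_adm h), ← UQS_Ms _ (fun _ _ _ h => PSY_symm h)]
    exact h1
  · unfold UQ
    rw [Nat.gcd_mul_right, Nat.mul_div_mul_right _ _ (by omega), Nat.mul_div_mul_right _ _ (by omega)]
  · unfold UQ
    rw [Nat.gcd_self, Nat.div_self (by omega)]
    intro X₀
    obtain ⟨M₀, hM₀⟩ := hD {1} (fun _ => 1) (fun s hs => by
      rw [mem_singleton] at hs
      subst hs
      exact ⟨one_pos, zero_le_one⟩) (1 / 3 - δ) (by linarith)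
    obtain ⟨M, hM⟩ : ∃ M : ℕ, M = 2 * (M₀ + X₀) + 1 := ⟨_, rfl⟩
    refine ⟨M, by omega, ?_⟩
    have h1 := hM₀ (2 * M) (by omega) (-(M : ℤ)) (by rw [abs_neg, Nat.abs_cast]; push_cast; omega)
    rw [sum_singleton, sum_singleton, sum_singleton, Nat.gcd_self, Nat.div_self one_pos] at h1
    obtain ⟨w1, w2⟩ := hWDW 1 1 M le_rfl le_rfl (by omega) (Or.inl ⟨rfl, rfl, ⟨M₀ + X₀, hM⟩⟩)
    rw [one_mul] at w1 w2
    have h2 : δ ≤ Ms TrueCase 1 1 M / Ms Pool.Agent.helper11.TX.Adm 1 1 M := by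
      have h3 : DD 1 1 (2 * M) (-(M : ℤ)) = Ms TrueCase 1 1 M / Ms Pool.Agent.helper11.TX.Adm 1 1 M := by
        unfold DD
        rw [w1, w2]
      rw [h3] at h1
      linarith
    rcases (UQS_Ms_nonneg Pool.Agent.helper11.TX.Adm 1 1 M).eq_or_lt with h3 | h3
    · rw [← h3, mul_zero]
      exact UQS_Ms_nonneg _ _ _ _
    · exact (le_div_iff₀ h3).1 h2

end Pool.Agent.EP
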